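import Pool.Agent.P8H97.GW.Stm
import Pool.Agent.Y308.BC.Gevrey

/-! # GW/BMP: a periodic Gevrey bump -/

set_option autoImplicit false

namespace Pool.Agent.P8H85.GW

open MeasureTheory Filter Topology Set Pool.Agent.P8H97.GW Pool.Agent.Y308.BC

/-- the scaled bump and its derivatives -/
noncomputable def hb (δ : ℝ) (j : ℕ) (v : ℝ) : ℂ := ((δ⁻¹ ^ j * gj j (v / δ) : ℝ) : ℂ)

lemma hb_deriv (δ : ℝ) (j : ℕ) (v : ℝ) : HasDerivAt (hb δ j) (hb δ (j + 1) v) v := by
  unfold hb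
  have h1 : HasDerivAt (fun v : ℝ => gj j (v / δ)) (gj (j + 1) (v / δ) * (1 / δ)) v :=
    HasDerivAt.comp (h₂ := gj j) v (gj_deriv j (v / δ)) ((hasDerivAt_id v).div_const δ)
  have h2 := (h1.const_mul (δ⁻¹ ^ j)).ofReal_comp
  convert! h2 using 1
  rw [pow_succ]
  push_cast
  ring

lemma hb_cont (δ : ℝ) (j : ℕ) : Continuous (hb δ j) :=
  continuous_iff_continuousAt.2 fun t => (hb_deriv δ j t).continuousAt

lemma hb_zero {δ : ℝ} (hδ : 0 < δ) (j : ℕ) {v : ℝ} (h : v ≤ 0 ∨ δ ≤ v) : hb δ j v = 0 := by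
  unfold hb
  rw [gj_out j, mul_zero, Complex.ofReal_zero]
  rintro ⟨h1, h2⟩
  rcases h with h | h
  · have := div_nonpos_of_nonpos_of_nonneg h hδ.le
    linarith
  · have := (one_le_div hδ).2 h
    linarith

/-- the bound for the derivatives -/
noncomputable def gb (j : ℕ) : ℝ := j.factorial * √(j.factorial)

lemma gb_nonneg (j : ℕ) : 0 ≤ gb j := by unfold gb; positivity

lemma hb_norm {δ : ℝ} (hδ : 0 < δ) (j : ℕ) (v : ℝ) : ‖hb δ j v‖ ≤ (7 / δ) ^ j * gb j := by
  unfold hb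
  rw [Complex.norm_real, Real.norm_eq_abs, abs_mul, abs_of_nonneg (by positivity)]
  have h1 := gj_bound j (v / δ)
  calc δ⁻¹ ^ j * |gj j (v / δ)| ≤ δ⁻¹ ^ j * (7 ^ j * (j.factorial * √(j.factorial))) :=
        mul_le_mul_of_nonneg_left h1 (by positivity)
    _ = (7 / δ) ^ j * gb j := by
        unfold gb
        rw [div_eq_mul_inv, mul_pow]
        ring

section

variable {δ b : ℝ} (hb0 : 0 < b)

lemma coef_norm (f : ℝ → ℂ) (B : ℝ) (hf : ∀ v, ‖f v‖ ≤ B) (n : ℤ) :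
    ‖fourierCoeffOn hb0 f n‖ ≤ B := by
  rw [fourierCoeffOn_eq_integral]
  have h1 : ‖∫ x in (0:ℝ)..b, fourier (-n) (x : AddCircle (b - 0)) • f x‖ ≤ B * |b - 0| := by
    refine intervalIntegral.norm_integral_le_of_norm_le_const fun x _ => ?_
    rw [norm_smul]
    have h2 : ‖fourier (-n) (x : AddCircle (b - 0))‖ = 1 := by
      rw [fourier_apply]
      exact Circle.norm_coe _
    rw [h2, one_mul]
    exact hf x
  rw [norm_smul, Real.norm_eq_abs, sub_zero, abs_of_pos (by positivity : 0 < 1 / b)]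
  rw [sub_zero, abs_of_pos hb0] at h1
  calc 1 / b * ‖_‖ ≤ 1 / b * (B * b) := mul_le_mul_of_nonneg_left h1 (by positivity)
    _ = B := by field_simp

lemma coef_step (hδ : 0 < δ) (hδb : δ ≤ b) {n : ℤ} (hn : n ≠ 0) (j : ℕ) :
    ‖fourierCoeffOn hb0 (hb δ j) n‖ =
      (b / (2 * Real.pi * |(n : ℝ)|)) * ‖fourierCoeffOn hb0 (hb δ (j + 1)) n‖ := by
  rw [fourierCoeffOn_of_hasDerivAt hb0 hn (f := hb δ j) (f' := hb δ (j + 1))
    (fun x _ => hb_deriv δ j x) ((hb_cont δ (j + 1)).intervalIntegrable _ _)]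
  rw [hb_zero hδ j (Or.inr hδb), hb_zero hδ j (Or.inl le_rfl), sub_self (0 : ℂ), mul_zero, zero_sub]
  have hn' : (n : ℂ) ≠ 0 := by exact_mod_cast hn
  rw [norm_mul, norm_div, norm_mul, norm_mul, norm_mul, norm_neg, norm_neg, norm_mul]
  simp only [norm_one, Complex.norm_real, Complex.norm_I, mul_one, Complex.norm_intCast,
    Complex.norm_ofNat, Real.norm_eq_abs]
  rw [abs_of_pos Real.pi_pos]
  have h3 : ‖((b : ℂ) - ((0 : ℝ) : ℂ))‖ = b := by
    rw [← Complex.ofReal_sub, Complex.norm_real, sub_zero, Real.norm_eq_abs, abs_of_pos hb0]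
  rw [h3]
  field_simp

lemma coef_iter (hδ : 0 < δ) (hδb : δ ≤ b) {n : ℤ} (hn : n ≠ 0) (j : ℕ) :
    ‖fourierCoeffOn hb0 (hb δ 0) n‖ =
      (b / (2 * Real.pi * |(n : ℝ)|)) ^ j * ‖fourierCoeffOn hb0 (hb δ j) n‖ := by
  induction j with
  | zero => rw [pow_zero, one_mul]
  | succ j ih => rw [ih, coef_step hb0 hδ hδb hn j, pow_succ]; ring

lemma gb_le (j : ℕ) : gb j ≤ (j * √j) ^ j := by
  unfold gb
  have h1 : (j.factorial : ℝ) ≤ (j : ℝ) ^ j := by exact_mod_cast Nat.factorial_le_pow j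
  have h2 : √(j.factorial : ℝ) ≤ (√j) ^ j := by
    rw [Real.sqrt_le_iff]
    refine ⟨by positivity, ?_⟩
    rw [← pow_mul, mul_comm j 2, pow_mul, Real.sq_sqrt (Nat.cast_nonneg _)]
    exact h1
  rw [mul_pow]
  exact mul_le_mul h1 h2 (by positivity) (by positivity)

/-- the decay of the coefficients -/
lemma coef_decay (hδ : 0 < δ) (hδb : δ ≤ b) : ∃ c : ℝ, 0 < c ∧ ∀ n : ℤ, n ≠ 0 →
    ‖fourierCoeffOn hb0 (hb δ 0) n‖ ≤ Real.exp (1 - c * |(n : ℝ)| ^ (2 / 3 : ℝ)) := by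
  set D : ℝ := 7 * b / (2 * Real.pi * δ) with hD
  have hDpos : 0 < D := by positivity
  set e1 : ℝ := Real.exp 1 with he1
  have he1pos : 0 < e1 := Real.exp_pos 1
  refine ⟨((e1 * D)⁻¹) ^ (2 / 3 : ℝ), by positivity, fun n hn => ?_⟩
  have hn1 : 0 < |(n : ℝ)| := abs_pos.2 (by exact_mod_cast hn)
  set X : ℝ := |(n : ℝ)| / (e1 * D) with hX
  have hXpos : 0 < X := by positivity
  set y : ℝ := X ^ (2 / 3 : ℝ) with hy
  have hypos : 0 < y := Real.rpow_pos_of_pos hXpos _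
  have hy2 : y * √y = X := by
    rw [Real.sqrt_eq_rpow, hy, ← Real.rpow_mul hXpos.le, ← Real.rpow_add hXpos]
    norm_num
  set j : ℕ := ⌊y⌋₊ with hj
  have hjy : (j : ℝ) ≤ y := Nat.floor_le hypos.le
  have hjy2 : y < j + 1 := Nat.lt_floor_add_one y
  have hjj : (j : ℝ) * √j ≤ X := by
    rw [← hy2]
    exact mul_le_mul hjy (Real.sqrt_le_sqrt hjy) (Real.sqrt_nonneg _) hypos.le
  rw [coef_iter hb0 hδ hδb hn j]
  have h1 : ‖fourierCoeffOn hb0 (hb δ j) n‖ ≤ (7 / δ) ^ j * gb j :=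
    coef_norm hb0 _ _ (hb_norm hδ j) n
  have h2 : (b / (2 * Real.pi * |(n : ℝ)|)) ^ j * ((7 / δ) ^ j * gb j) ≤ (e1⁻¹) ^ j := by
    calc (b / (2 * Real.pi * |(n : ℝ)|)) ^ j * ((7 / δ) ^ j * gb j)
        ≤ (b / (2 * Real.pi * |(n : ℝ)|)) ^ j * ((7 / δ) ^ j * X ^ j) := by
          refine mul_le_mul_of_nonneg_left (mul_le_mul_of_nonneg_left ?_ (by positivity))
            (by positivity)
          exact (gb_le j).trans (pow_le_pow_left₀ (by positivity) hjj j)
      _ = (b / (2 * Real.pi * |(n : ℝ)|) * (7 / δ) * X) ^ j := by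
          rw [mul_pow, mul_pow]; ring
      _ = (e1⁻¹) ^ j := by
          congr 1
          rw [hX, hD]
          field_simp
  have h3 : (e1⁻¹) ^ j = Real.exp (-(j : ℝ)) := by
    rw [he1, ← Real.exp_neg, ← Real.exp_nat_mul]
    congr 1
    ring
  have h4 : ((e1 * D)⁻¹) ^ (2 / 3 : ℝ) * |(n : ℝ)| ^ (2 / 3 : ℝ) = y := by
    rw [hy, hX, div_eq_mul_inv |(n : ℝ)| (e1 * D), Real.mul_rpow hn1.le (by positivity), mul_comm]
  calc (b / (2 * Real.pi * |(n : ℝ)|)) ^ j * ‖fourierCoeffOn hb0 (hb δ j) n‖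
      ≤ (b / (2 * Real.pi * |(n : ℝ)|)) ^ j * ((7 / δ) ^ j * gb j) :=
        mul_le_mul_of_nonneg_left h1 (by positivity)
    _ ≤ (e1⁻¹) ^ j := h2
    _ = Real.exp (-(j : ℝ)) := h3
    _ ≤ Real.exp (1 - ((e1 * D)⁻¹) ^ (2 / 3 : ℝ) * |(n : ℝ)| ^ (2 / 3 : ℝ)) := by
        rw [h4]
        apply Real.exp_le_exp.2
        linarith

end

/-- the summability with the weights -/
lemma summ_of_decay (a : ℤ → ℂ) (c : ℝ) (hc : 0 < c)
    (ha : ∀ n : ℤ, n ≠ 0 → ‖a n‖ ≤ Real.exp (1 - c * |(n : ℝ)| ^ (2 / 3 : ℝ))) (K : ℝ) :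
    Summable (fun m : ℤ => ‖a m‖ * Real.exp (K * |(m : ℝ)| ^ (1 / 3 : ℝ))) := by
  set L : ℝ := K + 1 with hL
  set B : ℝ := 720 * Real.exp (1 + L ^ 2 / (4 * c)) with hB
  have hs : Summable (fun m : ℤ => B * (1 / (m : ℝ) ^ 2)) :=
    (Real.summable_one_div_int_pow.2 (by norm_num)).mul_left B
  refine Summable.of_norm_bounded_eventually hs ?_
  have hfin : {m : ℤ | ¬ (‖‖a m‖ * Real.exp (K * |(m : ℝ)| ^ (1 / 3 : ℝ))‖ ≤
      B * (1 / (m : ℝ) ^ 2))} ⊆ {0} := by
    intro m hm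
    by_contra hm0
    apply hm
    have hm0' : m ≠ 0 := hm0
    have hm1 : 0 < |(m : ℝ)| := abs_pos.2 (by exact_mod_cast hm0')
    set y : ℝ := |(m : ℝ)| ^ (1 / 3 : ℝ) with hy
    have hypos : 0 < y := Real.rpow_pos_of_pos hm1 _
    have hy2 : |(m : ℝ)| ^ (2 / 3 : ℝ) = y ^ 2 := by
      rw [hy, ← Real.rpow_natCast, ← Real.rpow_mul hm1.le]
      norm_num
    have hy6 : (m : ℝ) ^ 2 = y ^ 6 := by
      rw [hy, ← Real.rpow_natCast (_ ^ _) 6, ← Real.rpow_mul hm1.le, ← sq_abs,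
        ← Real.rpow_natCast]
      norm_num
    rw [norm_mul, norm_norm, Real.norm_eq_abs, abs_of_pos (Real.exp_pos _), hy6, mul_one_div,
      le_div_iff₀ (by positivity)]
    have h1 := ha m hm0'
    rw [hy2] at h1
    have h6 : y ^ 6 ≤ 720 * Real.exp y := by
      have := Real.pow_div_factorial_le_exp y hypos.le 6
      have e : ((Nat.factorial 6 : ℕ) : ℝ) = 720 := by norm_num [Nat.factorial]
      rw [e, div_le_iff₀ (by norm_num)] at this
      linarith
    have h7 : L * y - c * y ^ 2 ≤ L ^ 2 / (4 * c) := by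
      rw [le_div_iff₀ (by positivity)]
      nlinarith [sq_nonneg (2 * c * y - L)]
    calc ‖a m‖ * Real.exp (K * y) * y ^ 6
        ≤ Real.exp (1 - c * y ^ 2) * Real.exp (K * y) * (720 * Real.exp y) :=
          mul_le_mul (mul_le_mul_of_nonneg_right h1 (Real.exp_pos _).le) h6 (by positivity)
            (by positivity)
      _ = 720 * Real.exp (1 + (L * y - c * y ^ 2)) := by
          have e : 1 + (L * y - c * y ^ 2) = (1 - c * y ^ 2) + K * y + y := by rw [hL]; ring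
          rw [e, Real.exp_add, Real.exp_add]
          ring
      _ ≤ B := by
          rw [hB]
          gcongr
  exact (Set.finite_singleton _).subset hfin

theorem bmp_w : S_BMP := by
  intro α δ hα hδ hδα
  set T : ℝ := 1 / α with hT
  have hT0 : 0 < T := by positivity
  have : Fact (0 < T) := ⟨hT0⟩
  have hb0 : (0 : ℝ) < 0 + T := by linarith
  have hδT : δ ≤ 0 + T := by linarith
  have hcont : Continuous (AddCircle.liftIco T 0 (hb δ 0)) := by
    refine AddCircle.liftIco_continuous ?_ (hb_cont δ 0).continuousOn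
    rw [hb_zero hδ 0 (Or.inl le_rfl), hb_zero hδ 0 (Or.inr hδT)]
  let f : C(AddCircle T, ℂ) := ⟨AddCircle.liftIco T 0 (hb δ 0), hcont⟩
  have hco : ∀ n, fourierCoeff f n = fourierCoeffOn hb0 (hb δ 0) n := fun n =>
    fourierCoeff_liftIco_eq (hb δ 0) n
  obtain ⟨c, hc, hdec⟩ := coef_decay (δ := δ) hb0 hδ hδT
  have hsum : ∀ K : ℝ, Summable (fun m : ℤ => ‖fourierCoeff f m‖ *
      Real.exp (K * |(m : ℝ)| ^ (1 / 3 : ℝ))) := by
    intro K
    refine summ_of_decay _ c hc (fun n hn => ?_) K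
    rw [hco n]
    exact hdec n hn
  have hsum0 : Summable (fourierCoeff f) := by
    have := hsum 0
    simp only [zero_mul, Real.exp_zero, mul_one] at this
    exact this.of_norm
  -- the values
  have hval : ∀ v : ℝ, ∃ k : ℤ, f (v : AddCircle T) = ((gj 0 ((v - k * T) / δ) : ℝ) : ℂ) := by
    intro v
    refine ⟨⌊v / T⌋, ?_⟩
    have h1 : ((v - ⌊v / T⌋ * T : ℝ) : AddCircle T) = (v : AddCircle T) := by
      have : ((⌊v / T⌋ * T : ℝ)) = ⌊v / T⌋ • T := by rw [zsmul_eq_mul]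
      rw [this, AddCircle.coe_sub, AddCircle.coe_zsmul, AddCircle.coe_period, smul_zero, sub_zero]
    have h2 : v - ⌊v / T⌋ * T ∈ Set.Ico 0 (0 + T) := by
      have h3 := Int.floor_le (v / T)
      have h4 := Int.lt_floor_add_one (v / T)
      rw [le_div_iff₀ hT0] at h3
      rw [div_lt_iff₀ hT0] at h4
      constructor
      · linarith
      · linarith
    rw [← h1]
    change AddCircle.liftIco T 0 (hb δ 0) _ = _
    rw [AddCircle.liftIco_coe_apply h2]
    unfold hb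
    rw [pow_zero, one_mul]
  have hre : ∀ v : ℝ, (((f (v : AddCircle T)).re : ℝ) : ℂ) = f (v : AddCircle T) := by
    intro v
    obtain ⟨k, hk⟩ := hval v
    rw [hk, Complex.ofReal_re]
  have hgnn : ∀ s, 0 ≤ gj 0 s := by
    intro s
    by_cases h : 0 < s ∧ s < 1
    · exact (gj_zero_pos h.1 h.2).le
    · rw [gj_out 0 h]
  refine ⟨fun m => fourierCoeff f m, fun v => (f (v : AddCircle T)).re, ?_, ?_, ?_, ?_, ?_, ?_, hsum⟩
  · exact Complex.continuous_re.comp (f.continuous.comp (AddCircle.continuous_mk' T))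
  · intro v
    obtain ⟨k, hk⟩ := hval v
    change 0 ≤ (f (v : AddCircle T)).re
    rw [hk, Complex.ofReal_re]
    exact hgnn _
  · intro v
    obtain ⟨k, hk⟩ := hval v
    change (f (v : AddCircle T)).re ≤ 1
    rw [hk, Complex.ofReal_re]
    have := gj_bound 0 ((v - k * T) / δ)
    simp only [pow_zero, Nat.factorial_zero, Nat.cast_one, Real.sqrt_one, mul_one] at this
    exact (le_abs_self _).trans this
  · intro v hv
    obtain ⟨k, hk⟩ := hval v
    change (f (v : AddCircle T)).re ≠ 0 at hv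
    rw [hk, Complex.ofReal_re] at hv
    have h1 : 0 < (v - k * T) / δ ∧ (v - k * T) / δ < 1 := by
      by_contra h
      exact hv (gj_out 0 h)
    have h2 := (div_pos_iff_of_pos_right hδ).1 h1.1
    have h3 := (div_lt_one hδ).1 h1.2
    have h4 : (k : ℝ) / α = k * T := by rw [hT]; ring
    refine ⟨k, ?_, ?_⟩
    · rw [h4]; linarith
    · rw [h4]; linarith
  · intro v
    have h1 := has_pointwise_sum_fourier_series_of_summable hsum0 (v : AddCircle T)
    change HasSum _ (((f (v : AddCircle T)).re : ℝ) : ℂ)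
    rw [hre v]
    convert! h1 using 2 with m
    rw [smul_eq_mul, fourier_coe_apply]
    congr 2
    rw [hT]
    push_cast
    field_simp
  · have h0 : fourierCoeff f 0 = (((1 / T) * ∫ x in (0:ℝ)..T, gj 0 (x / δ) : ℝ) : ℂ) := by
      rw [hco 0, fourierCoeffOn_eq_integral]
      have e1 : ∀ x : ℝ, fourier (-0) (x : AddCircle (0 + T - 0)) • hb δ 0 x =
          ((gj 0 (x / δ) : ℝ) : ℂ) := by
        intro x
        rw [neg_zero, fourier_zero, one_smul]
        unfold hb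
        rw [pow_zero, one_mul]
      simp only [e1]
      rw [intervalIntegral.integral_ofReal, zero_add, sub_zero, Complex.real_smul]
      push_cast
      ring
    refine ⟨(1 / T) * ∫ x in (0:ℝ)..T, gj 0 (x / δ), ?_, h0⟩
    apply mul_pos (by positivity)
    have hgc : Continuous (fun x : ℝ => gj 0 (x / δ)) := (gj_cont 0).comp (continuous_id.div_const δ)
    rw [← intervalIntegral.integral_add_adjacent_intervals (b := δ)
      (hgc.intervalIntegrable _ _) (hgc.intervalIntegrable _ _)]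
    have h1 : 0 < ∫ x in (0:ℝ)..δ, gj 0 (x / δ) := by
      refine intervalIntegral.intervalIntegral_pos_of_pos_on (hgc.intervalIntegrable _ _) ?_ hδ
      intro x hx
      exact gj_zero_pos (div_pos hx.1 hδ) ((div_lt_one hδ).2 hx.2)
    have h2 : 0 ≤ ∫ x in δ..T, gj 0 (x / δ) :=
      intervalIntegral.integral_nonneg hδα (fun x _ => hgnn _)
    linarith

end Pool.Agent.P8H85.GW
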