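import Pool.Agent.P8H97.GW.Stm
import Pool.Agent.W563.WM.Cnt
import Pool.Agent.R479.DA.Lim

/-! # GW/GEN: the exceptional frequencies have Hausdorff dimension zero -/

set_option autoImplicit false

namespace Pool.Agent.P8H85.GW

open MeasureTheory Filter Topology Set Pool.Agent.P8H97.GW

lemma ord_count : ∃ C : ℝ, 0 < C ∧ ∀ (n : ℕ) (Z : Finset ℝ), (∀ γ ∈ Z, γ ∈ P8H97.GW.Ord ∧ |γ| ≤ n) →
    (Z.card : ℝ) ≤ C * ((n : ℝ) + 1) ^ 2 := by
  classical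
  obtain ⟨C, hC, h⟩ := Pool.Agent.W563.WM.t_cnt
  refine ⟨6 * C, by positivity, fun n Z hZ => ?_⟩
  have hinj : Function.Injective (fun γ : ℝ => (⟨1 / 2, γ⟩ : ℂ)) := by
    intro a b hab
    exact congrArg Complex.im hab
  have hNT : ∀ ρ ∈ Z.image (fun γ : ℝ => (⟨1 / 2, γ⟩ : ℂ)), ρ ∈ Pool.Agent.W120.WM.NT := by
    intro ρ hρ
    obtain ⟨γ, hγ, rfl⟩ := Finset.mem_image.1 hρ
    refine ⟨(hZ γ hγ).1, ?_, ?_⟩
    · change (0 : ℝ) < 1 / 2
      norm_num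
    · change (1 / 2 : ℝ) < 1
      norm_num
  have hsub : Z ⊆ (Finset.Icc (-(n : ℤ)) n).biUnion fun j => Z.filter fun γ => |γ - j| ≤ 1 := by
    intro γ hγ
    have h1 := (hZ γ hγ).2
    rw [abs_le] at h1
    rw [Finset.mem_biUnion]
    refine ⟨⌊γ⌋, ?_, ?_⟩
    · rw [Finset.mem_Icc]
      constructor
      · rw [Int.le_floor]
        push_cast
        exact h1.1
      · have h2 := Int.floor_le γ
        have : ((⌊γ⌋ : ℤ) : ℝ) ≤ n := h2.trans h1.2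
        exact_mod_cast this
    · rw [Finset.mem_filter]
      refine ⟨hγ, ?_⟩
      rw [abs_le]
      have h2 := Int.floor_le γ
      have h3 := Int.lt_floor_add_one γ
      constructor <;> linarith
  have hj : ∀ j ∈ Finset.Icc (-(n : ℤ)) n, ((Z.filter fun γ => |γ - (j : ℝ)| ≤ 1).card : ℝ) ≤
      C * (3 + n) := by
    intro j hj
    have h1 := h _ hNT (j : ℝ)
    have h2 : (Z.image (fun γ : ℝ => (⟨1 / 2, γ⟩ : ℂ))).filter (fun ρ => |ρ.im - (j : ℝ)| ≤ 1) =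
        (Z.filter fun γ => |γ - (j : ℝ)| ≤ 1).image (fun γ : ℝ => (⟨1 / 2, γ⟩ : ℂ)) := by
      rw [Finset.filter_image]
    rw [h2, Finset.card_image_of_injective _ hinj] at h1
    refine h1.trans (mul_le_mul_of_nonneg_left ?_ hC.le)
    have h3 : |(j : ℝ)| ≤ n := by
      rw [Finset.mem_Icc] at hj
      rw [abs_le]
      constructor
      · have := hj.1
        exact_mod_cast this
      · exact_mod_cast hj.2
    have h4 := Real.log_le_sub_one_of_pos (x := 3 + |(j : ℝ)|) (by positivity)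
    linarith
  have hc : (Z.card : ℝ) ≤ ∑ j ∈ Finset.Icc (-(n : ℤ)) n,
      ((Z.filter fun γ => |γ - (j : ℝ)| ≤ 1).card : ℝ) := by
    have := (Finset.card_le_card hsub).trans Finset.card_biUnion_le
    exact_mod_cast this
  refine hc.trans ((Finset.sum_le_sum hj).trans ?_)
  rw [Finset.sum_const, nsmul_eq_mul, Int.card_Icc]
  have h5 : (((n : ℤ) + 1 - -(n : ℤ)).toNat : ℝ) = 2 * n + 1 := by
    have : ((n : ℤ) + 1 - -(n : ℤ)).toNat = 2 * n + 1 := by omega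
    rw [this]
    push_cast
    ring
  rw [h5]
  have hn : (0 : ℝ) ≤ n := Nat.cast_nonneg n
  nlinarith [mul_nonneg hC.le hn, mul_nonneg hC.le (mul_nonneg hn hn)]

lemma ord_finite (R : ℝ) : {γ : ℝ | γ ∈ P8H97.GW.Ord ∧ |γ| ≤ R}.Finite := by
  obtain ⟨C, hC, h⟩ := ord_count
  by_contra hinf
  obtain ⟨Z, hZ, hcard⟩ := Set.Infinite.exists_subset_card_eq hinf
    (⌈C * ((⌈R⌉₊ : ℝ) + 1) ^ 2⌉₊ + 1)
  have h1 := h ⌈R⌉₊ Z (fun γ hγ => ⟨(hZ hγ).1, (hZ hγ).2.trans (Nat.le_ceil R)⟩)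
  rw [hcard] at h1
  push_cast at h1
  have h2 := Nat.le_ceil (C * ((⌈R⌉₊ : ℝ) + 1) ^ 2)
  linarith

lemma ord_countable : P8H97.GW.Ord.Countable := by
  have h : P8H97.GW.Ord ⊆ ⋃ n : ℕ, {γ : ℝ | γ ∈ P8H97.GW.Ord ∧ |γ| ≤ (n : ℝ)} := by
    intro γ hγ
    obtain ⟨n, hn⟩ := exists_nat_ge |γ|
    exact mem_iUnion.2 ⟨n, hγ, hn⟩
  exact (countable_iUnion fun n : ℕ => (ord_finite n).countable).mono h

/-- the range of the ordinates -/
noncomputable def Rm (γ₀ : ℝ) (A : ℕ) (m : ℤ) : ℝ := |γ₀| + 2 * Real.pi * |(m : ℝ)| * A + 1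

/-- the pairs of a frequency and an ordinate -/
abbrev Ix (γ₀ : ℝ) (A : ℕ) : Type := Σ m : ℤ, {γ : ℝ // γ ∈ P8H97.GW.Ord ∧ |γ| ≤ Rm γ₀ A m}

instance (γ₀ : ℝ) (A : ℕ) (m : ℤ) : Finite {γ : ℝ // γ ∈ P8H97.GW.Ord ∧ |γ| ≤ Rm γ₀ A m} :=
  (ord_finite (Rm γ₀ A m)).to_subtype

/-- the intervals -/
def Uset (γ₀ : ℝ) (A : ℕ) (i : Ix γ₀ A) : Set ℝ :=
  {α | i.1 ≠ 0 ∧ |γ₀ - i.2.1 - 2 * Real.pi * i.1 * α| < Real.exp (-q4 i.1)}

lemma q4_nonneg (m : ℤ) : 0 ≤ q4 m := by unfold q4; positivity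

lemma Uset_diam (γ₀ : ℝ) (A : ℕ) (i : Ix γ₀ A) :
    Metric.ediam (Uset γ₀ A i) ≤ ENNReal.ofReal (Real.exp (-q4 i.1)) := by
  refine Metric.ediam_le fun x hx y hy => ?_
  rw [edist_dist]
  apply ENNReal.ofReal_le_ofReal
  rw [Real.dist_eq]
  obtain ⟨hm, hx⟩ := hx
  obtain ⟨_, hy⟩ := hy
  have hm1 : (1 : ℝ) ≤ |(i.1 : ℝ)| := by
    have := Int.one_le_abs hm
    exact_mod_cast this
  have h1 : |2 * Real.pi * i.1 * (x - y)| < 2 * Real.exp (-q4 i.1) := by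
    have e : 2 * Real.pi * i.1 * (x - y) = (γ₀ - i.2.1 - 2 * Real.pi * i.1 * y) -
        (γ₀ - i.2.1 - 2 * Real.pi * i.1 * x) := by ring
    rw [e]
    refine (abs_sub _ _).trans_lt ?_
    linarith
  rw [abs_mul, abs_mul, abs_of_pos (by positivity : (0:ℝ) < 2 * Real.pi)] at h1
  have h2 : 2 * |x - y| ≤ 2 * Real.pi * |(i.1 : ℝ)| * |x - y| := by
    apply mul_le_mul_of_nonneg_right _ (abs_nonneg _)
    nlinarith [Real.pi_gt_three]
  linarith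

lemma exp_q4_bound (D : ℝ) (hD : 0 < D) (m : ℤ) (hm : m ≠ 0) :
    Real.exp (-q4 m) ^ D ≤ (Nat.factorial 16 / D ^ 16) * (1 / (m : ℝ) ^ 4) := by
  have hm1 : 0 < |(m : ℝ)| := abs_pos.2 (by exact_mod_cast hm)
  have hq : 0 < q4 m := by unfold q4; positivity
  have h1 := Real.pow_div_factorial_le_exp (D * q4 m) (by positivity) 16
  have hq16 : q4 m ^ 16 = (m : ℝ) ^ 4 := by
    unfold q4
    rw [← Real.rpow_natCast (_ ^ _) 16, ← Real.rpow_mul hm1.le]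
    have : (1 / 4 : ℝ) * (16 : ℕ) = ((4 : ℕ) : ℝ) := by norm_num
    rw [this, Real.rpow_natCast]
    exact Even.pow_abs (by decide) _
  rw [mul_pow, hq16] at h1
  rw [← Real.exp_mul]
  have h3 : -q4 m * D = -(D * q4 m) := by ring
  rw [h3, Real.exp_neg]
  have hpos : 0 < D ^ 16 * (m : ℝ) ^ 4 / (Nat.factorial 16 : ℝ) := by
    have : 0 < (m : ℝ) ^ 4 := by
      rw [← hq16]; positivity
    positivity
  calc (Real.exp (D * q4 m))⁻¹ ≤ (D ^ 16 * (m : ℝ) ^ 4 / (Nat.factorial 16 : ℝ))⁻¹ :=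
        inv_anti₀ hpos h1
    _ = (Nat.factorial 16 / D ^ 16) * (1 / (m : ℝ) ^ 4) := by
        rw [inv_div]
        have hm4 : (m : ℝ) ^ 4 ≠ 0 := by
          rw [← hq16]; positivity
        field_simp

lemma summ_ix (γ₀ : ℝ) (A : ℕ) (D : ℝ) (hD : 0 < D) :
    Summable fun i : Ix γ₀ A => Real.exp (-q4 i.1) ^ D := by
  classical
  obtain ⟨C, hC, hcnt⟩ := ord_count
  have : ∀ m, Fintype {γ : ℝ // γ ∈ P8H97.GW.Ord ∧ |γ| ≤ Rm γ₀ A m} := fun m => Fintype.ofFinite _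
  rw [summable_sigma_of_nonneg (fun _ => by positivity)]
  refine ⟨fun m => (hasSum_fintype _).summable, ?_⟩
  have hcard : ∀ m : ℤ, (Fintype.card {γ : ℝ // γ ∈ P8H97.GW.Ord ∧ |γ| ≤ Rm γ₀ A m} : ℝ) ≤
      C * (Rm γ₀ A m + 2) ^ 2 := by
    intro m
    have hR : 0 ≤ Rm γ₀ A m := by unfold Rm; positivity
    have h1 := hcnt ⌈Rm γ₀ A m⌉₊ (ord_finite (Rm γ₀ A m)).toFinset (fun γ hγ => by
      have h2 := (Set.Finite.mem_toFinset _).1 hγ
      exact ⟨h2.1, h2.2.trans (Nat.le_ceil _)⟩)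
    have h3 : Fintype.card {γ : ℝ // γ ∈ P8H97.GW.Ord ∧ |γ| ≤ Rm γ₀ A m} =
        (ord_finite (Rm γ₀ A m)).toFinset.card := by
      rw [← Nat.card_eq_fintype_card]
      exact (Nat.card_eq_card_finite_toFinset (ord_finite (Rm γ₀ A m)))
    rw [h3]
    refine h1.trans (mul_le_mul_of_nonneg_left ?_ hC.le)
    have h4 : (⌈Rm γ₀ A m⌉₊ : ℝ) < Rm γ₀ A m + 1 := Nat.ceil_lt_add_one hR
    apply pow_le_pow_left₀ (by positivity)
    linarith
  have heq : ∀ m : ℤ, (∑' y : {γ : ℝ // γ ∈ P8H97.GW.Ord ∧ |γ| ≤ Rm γ₀ A m},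
      Real.exp (-q4 (⟨m, y⟩ : Ix γ₀ A).1) ^ D) =
      (Fintype.card {γ : ℝ // γ ∈ P8H97.GW.Ord ∧ |γ| ≤ Rm γ₀ A m} : ℝ) * Real.exp (-q4 m) ^ D := by
    intro m
    rw [tsum_fintype]
    change ∑ b : {γ : ℝ // γ ∈ P8H97.GW.Ord ∧ |γ| ≤ Rm γ₀ A m}, Real.exp (-q4 m) ^ D = _
    rw [Finset.sum_const, Finset.card_univ, nsmul_eq_mul]
  simp only [heq]
  -- comparison
  set P : ℝ := |γ₀| + 2 * Real.pi * A + 3 with hP
  have hP0 : 0 < P := by positivity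
  set B : ℝ := C * P ^ 2 * (Nat.factorial 16 / D ^ 16) with hB
  have hs : Summable (fun m : ℤ => B * (1 / (m : ℝ) ^ 2)) :=
    (Real.summable_one_div_int_pow.2 (by norm_num)).mul_left B
  refine Summable.of_norm_bounded_eventually hs ?_
  have hfin : {m : ℤ | ¬ (‖(Fintype.card {γ : ℝ // γ ∈ P8H97.GW.Ord ∧ |γ| ≤ Rm γ₀ A m} : ℝ) *
      Real.exp (-q4 m) ^ D‖ ≤ B * (1 / (m : ℝ) ^ 2))} ⊆ {0} := by
    intro m hm
    by_contra hm0
    apply hm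
    have hm0' : m ≠ 0 := hm0
    have hm1 : (1 : ℝ) ≤ |(m : ℝ)| := by
      have := Int.one_le_abs hm0'
      exact_mod_cast this
    rw [Real.norm_eq_abs, abs_of_nonneg (by positivity)]
    have h1 : Rm γ₀ A m + 2 ≤ P * |(m : ℝ)| := by
      unfold Rm
      rw [hP]
      nlinarith [abs_nonneg γ₀]
    have h2 : (Rm γ₀ A m + 2) ^ 2 ≤ P ^ 2 * (m : ℝ) ^ 2 := by
      rw [← sq_abs (m : ℝ), ← mul_pow]
      apply pow_le_pow_left₀ _ h1
      unfold Rm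
      positivity
    have hm2 : (m : ℝ) ≠ 0 := by exact_mod_cast hm0'
    calc (Fintype.card {γ : ℝ // γ ∈ P8H97.GW.Ord ∧ |γ| ≤ Rm γ₀ A m} : ℝ) * Real.exp (-q4 m) ^ D
        ≤ (C * (P ^ 2 * (m : ℝ) ^ 2)) * ((Nat.factorial 16 / D ^ 16) * (1 / (m : ℝ) ^ 4)) := by
          refine mul_le_mul ((hcard m).trans (mul_le_mul_of_nonneg_left h2 hC.le))
            (exp_q4_bound D hD m hm0') (by positivity) (by positivity)
      _ = B * (1 / (m : ℝ) ^ 2) := by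
          rw [hB]
          field_simp
  exact (Set.finite_singleton _).subset hfin

/-- the exceptional set of an ordinate and a range -/
def Lset (γ₀ : ℝ) (A : ℕ) : Set ℝ := {α | {i : Ix γ₀ A | α ∈ Uset γ₀ A i}.Infinite}

lemma dim_L (γ₀ : ℝ) (A : ℕ) : dimH (Lset γ₀ A) = 0 := by
  have : Countable (Ix γ₀ A) := inferInstance
  have key : ∀ D : ℝ, 0 < D → dimH (Lset γ₀ A) ≤ ENNReal.ofReal D := fun D hD =>
    Pool.Agent.R479.DA.dimH_limsup (Uset γ₀ A) (fun i => Real.exp (-q4 i.1))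
      (fun i => Real.exp_pos _) (Uset_diam γ₀ A) hD (summ_ix γ₀ A D hD)
  rw [← nonpos_iff_eq_zero]
  refine le_of_forall_gt_imp_ge_of_dense fun a ha => ?_
  rcases eq_or_ne a ⊤ with rfl | ha'
  · exact le_top
  · have h := key a.toReal (ENNReal.toReal_pos ha.ne' ha')
    rwa [ENNReal.ofReal_toReal ha'] at h

/-- the frequencies with an exact relation -/
def Qset : Set ℝ := {α | ∃ γ₀ ∈ P8H97.GW.Ord, ∃ γ ∈ P8H97.GW.Ord, ∃ m : ℤ, m ≠ 0 ∧
  γ₀ - γ - 2 * Real.pi * m * α = 0}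

lemma Q_countable : Qset.Countable := by
  have h : Qset ⊆ (fun p : ℝ × ℝ × ℤ => (p.1 - p.2.1) / (2 * Real.pi * p.2.2)) ''
      (P8H97.GW.Ord ×ˢ (P8H97.GW.Ord ×ˢ (univ : Set ℤ))) := by
    rintro α ⟨γ₀, h0, γ, h1, m, hm, h2⟩
    refine ⟨(γ₀, γ, m), ⟨h0, h1, mem_univ _⟩, ?_⟩
    have hm' : (m : ℝ) ≠ 0 := by exact_mod_cast hm
    change (γ₀ - γ) / (2 * Real.pi * m) = α
    rw [div_eq_iff (by positivity)]
    linarith
  exact ((ord_countable.prod (ord_countable.prod (Set.to_countable _))).image _).mono h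

theorem gen : S_GEN := by
  classical
  refine ⟨(⋃ γ₀ ∈ P8H97.GW.Ord, ⋃ A : ℕ, Lset γ₀ A) ∪ Qset, ?_, ?_⟩
  · rw [dimH_union, Q_countable.dimH_zero, dimH_bUnion ord_countable]
    simp [dim_L, dimH_iUnion]
  · intro α hα hE γ₀ hγ₀
    rw [mem_union, not_or] at hE
    obtain ⟨hE1, hE2⟩ := hE
    obtain ⟨A, hA⟩ := exists_nat_gt α
    have hL : α ∉ Lset γ₀ A := fun h => hE1 (mem_iUnion₂.2 ⟨γ₀, hγ₀, mem_iUnion.2 ⟨A, h⟩⟩)
    have hF : {i : Ix γ₀ A | α ∈ Uset γ₀ A i}.Finite := Set.not_infinite.1 hL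
    let g : Ix γ₀ A → ℝ := fun i => |γ₀ - i.2.1 - 2 * Real.pi * i.1 * α| / Real.exp (-q4 i.1)
    have hg0 : ∀ i, 0 ≤ g i := fun i => by positivity
    set S : ℝ := 1 + ∑ i ∈ hF.toFinset, (g i)⁻¹ with hS
    have hS1 : 1 ≤ S := by
      have : 0 ≤ ∑ i ∈ hF.toFinset, (g i)⁻¹ := Finset.sum_nonneg fun i _ => inv_nonneg.2 (hg0 i)
      linarith
    refine ⟨S⁻¹, by positivity, fun γ hγ m hm => ?_⟩
    have hSinv : S⁻¹ ≤ 1 := inv_le_one_of_one_le₀ hS1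
    have hnum : S⁻¹ * Real.exp (-q4 m) ≤ Real.exp (-q4 m) := by
      have := Real.exp_pos (-q4 m)
      nlinarith
    by_cases hR : |γ| ≤ Rm γ₀ A m
    · let i : Ix γ₀ A := ⟨m, γ, hγ, hR⟩
      by_cases hi : α ∈ Uset γ₀ A i
      · have hne : γ₀ - γ - 2 * Real.pi * m * α ≠ 0 := fun h =>
          hE2 ⟨γ₀, hγ₀, γ, hγ, m, hm, h⟩
        have hgpos : 0 < g i := div_pos (abs_pos.2 hne) (Real.exp_pos _)
        have h1 : (g i)⁻¹ ≤ S := by
          have : (g i)⁻¹ ≤ ∑ i ∈ hF.toFinset, (g i)⁻¹ :=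
            Finset.single_le_sum (f := fun i => (g i)⁻¹) (fun i _ => inv_nonneg.2 (hg0 i))
              (hF.mem_toFinset.2 hi)
          linarith
        have h2 : S⁻¹ ≤ g i := by
          rw [inv_le_comm₀ (by linarith) hgpos]
          exact h1
        have h3 : g i * Real.exp (-q4 m) = |γ₀ - γ - 2 * Real.pi * m * α| :=
          div_mul_cancel₀ _ (Real.exp_pos _).ne'
        rw [← h3]
        exact mul_le_mul_of_nonneg_right h2 (Real.exp_pos _).le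
      · refine hnum.trans ?_
        by_contra hcon
        exact hi ⟨hm, not_le.1 hcon⟩
    · have h1 : Real.exp (-q4 m) ≤ 1 := Real.exp_le_one_iff.2 (by linarith [q4_nonneg m])
      refine hnum.trans (h1.trans ?_)
      rw [not_le] at hR
      unfold Rm at hR
      have h2 : |γ| ≤ |γ₀ - γ - 2 * Real.pi * m * α| + |γ₀| + |2 * Real.pi * m * α| := by
        have e : γ = -(γ₀ - γ - 2 * Real.pi * m * α) + γ₀ + (-(2 * Real.pi * m * α)) := by ring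
        calc |γ| = |-(γ₀ - γ - 2 * Real.pi * m * α) + γ₀ + (-(2 * Real.pi * m * α))| := by
              rw [← e]
          _ ≤ _ := by
              refine (abs_add_le _ _).trans (add_le_add (abs_add_le _ _) le_rfl) |>.trans ?_
              rw [abs_neg, abs_neg]
      have h3 : |2 * Real.pi * m * α| ≤ 2 * Real.pi * |(m : ℝ)| * A := by
        rw [abs_mul, abs_mul, abs_of_pos (by positivity : (0:ℝ) < 2 * Real.pi), abs_of_pos hα]
        exact mul_le_mul_of_nonneg_left hA.le (by positivity)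
      linarith

end Pool.Agent.P8H85.GW
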