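import Pool.Agent.P8H97.GW.Stm2
import Pool.Agent.P8H85.GW.Bmp

/-! # GW/GEV: a Gevrey bump and its Fourier transform -/

set_option autoImplicit false

namespace Pool.Agent.P8H85.GW

open MeasureTheory Filter Topology Set Pool.Agent.P8H97.GW Pool.Agent.Y308.BC

/-- the integrals of the derivatives -/
noncomputable def Gf (y : ℝ) (j : ℕ) : ℂ :=
  ∫ x in (0:ℝ)..1, ((gj j x : ℝ) : ℂ) * Complex.exp (-(y * x * Complex.I))

lemma gf_step {y : ℝ} (hy : y ≠ 0) (j : ℕ) : ‖Gf y j‖ = |y|⁻¹ * ‖Gf y (j + 1)‖ := by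
  have hyI : ((y : ℂ) * Complex.I) ≠ 0 := mul_ne_zero (by exact_mod_cast hy) Complex.I_ne_zero
  have hu : ∀ x ∈ uIcc (0:ℝ) 1, HasDerivAt (fun x : ℝ => ((gj j x : ℝ) : ℂ))
      ((gj (j + 1) x : ℝ) : ℂ) x := fun x _ => (gj_deriv j x).ofReal_comp
  have hv : ∀ x ∈ uIcc (0:ℝ) 1,
      HasDerivAt (fun x : ℝ => Complex.exp (-(y * x * Complex.I)) * (-(y * Complex.I))⁻¹)
        (Complex.exp (-(y * x * Complex.I))) x := by
    intro x _
    have h1 : HasDerivAt (fun x : ℝ => -((y : ℂ) * (x : ℂ) * Complex.I)) (-(y * Complex.I)) x := by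
      have h2 := (((hasDerivAt_id x).ofReal_comp).const_mul (y : ℂ)).mul_const Complex.I
      have h3 := h2.neg
      convert! h3 using 1
      simp
    have h4 := (h1.cexp).mul_const ((-(y * Complex.I))⁻¹ : ℂ)
    convert! h4 using 1
    exact (mul_inv_cancel_right₀ (neg_ne_zero.2 hyI) _).symm
  have hcu : Continuous fun x : ℝ => ((gj (j + 1) x : ℝ) : ℂ) :=
    Complex.continuous_ofReal.comp (gj_cont (j + 1))
  have hcv : Continuous fun x : ℝ => Complex.exp (-(y * x * Complex.I)) := by fun_prop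
  have h := intervalIntegral.integral_mul_deriv_eq_deriv_mul hu hv
    (hcu.intervalIntegrable _ _) (hcv.intervalIntegrable _ _)
  have h0 : gj j 0 = 0 := gj_out j (by simp)
  have h1 : gj j 1 = 0 := gj_out j (by simp)
  simp only [h0, h1, Complex.ofReal_zero, zero_mul, sub_zero, zero_sub] at h
  have e : Gf y j = -∫ x in (0:ℝ)..1, ((gj (j + 1) x : ℝ) : ℂ) *
      (Complex.exp (-(y * x * Complex.I)) * (-(y * Complex.I))⁻¹) := h
  have e2 : ∫ x in (0:ℝ)..1, ((gj (j + 1) x : ℝ) : ℂ) *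
      (Complex.exp (-(y * x * Complex.I)) * (-(y * Complex.I))⁻¹) =
      Gf y (j + 1) * (-(y * Complex.I))⁻¹ := by
    unfold Gf
    rw [← intervalIntegral.integral_mul_const]
    refine intervalIntegral.integral_congr fun x _ => ?_
    ring
  rw [e, e2, norm_neg, norm_mul, norm_inv, norm_neg, norm_mul, Complex.norm_I, mul_one,
    Complex.norm_real, Real.norm_eq_abs, mul_comm]

lemma gf_iter {y : ℝ} (hy : y ≠ 0) (j : ℕ) : ‖Gf y 0‖ = (|y|⁻¹) ^ j * ‖Gf y j‖ := by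
  induction j with
  | zero => rw [pow_zero, one_mul]
  | succ j ih => rw [ih, gf_step hy j, pow_succ]; ring

lemma gf_norm (y : ℝ) (j : ℕ) : ‖Gf y j‖ ≤ 7 ^ j * gb j := by
  unfold Gf
  refine (intervalIntegral.norm_integral_le_of_norm_le_const
    (C := 7 ^ j * gb j) fun x _ => ?_).trans ?_
  · rw [norm_mul, Complex.norm_real, Real.norm_eq_abs]
    have h1 : ‖Complex.exp (-(y * x * Complex.I))‖ = 1 := by
      have e : (-((y : ℂ) * (x : ℂ) * Complex.I)) = ((-(y * x) : ℝ) : ℂ) * Complex.I := by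
        push_cast; ring
      rw [e, Complex.norm_exp_ofReal_mul_I]
    rw [h1, mul_one]
    exact gj_bound j x
  · simp

lemma gf_decay : ∃ c : ℝ, 0 < c ∧ ∀ y : ℝ, y ≠ 0 →
    ‖Gf y 0‖ ≤ Real.exp (1 - c * |y| ^ (2 / 3 : ℝ)) := by
  set e1 : ℝ := Real.exp 1 with he1
  have he1pos : 0 < e1 := Real.exp_pos 1
  refine ⟨((e1 * 7)⁻¹) ^ (2 / 3 : ℝ), by positivity, fun n hn => ?_⟩
  have hn1 : 0 < |n| := abs_pos.2 hn
  set X : ℝ := |n| / (e1 * 7) with hX
  have hXpos : 0 < X := by positivity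
  set y : ℝ := X ^ (2 / 3 : ℝ) with hy
  have hypos : 0 < y := Real.rpow_pos_of_pos hXpos _
  have hy2 : y * √y = X := by
    rw [Real.sqrt_eq_rpow, hy, ← Real.rpow_mul hXpos.le, ← Real.rpow_add hXpos]
    norm_num
  set j : ℕ := ⌊y⌋₊ with hj
  have hjy : (j : ℝ) ≤ y := Nat.floor_le hypos.le
  have hjy2 : y < j + 1 := Nat.lt_floor_add_one y
  have hjj : (j : ℝ) * √j ≤ X := by
    rw [← hy2]
    exact mul_le_mul hjy (Real.sqrt_le_sqrt hjy) (Real.sqrt_nonneg _) hypos.le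
  rw [gf_iter hn j]
  have h1 : ‖Gf n j‖ ≤ 7 ^ j * gb j := gf_norm n j
  have h2 : (|n|⁻¹) ^ j * (7 ^ j * gb j) ≤ (e1⁻¹) ^ j := by
    calc (|n|⁻¹) ^ j * (7 ^ j * gb j) ≤ (|n|⁻¹) ^ j * (7 ^ j * X ^ j) := by
          refine mul_le_mul_of_nonneg_left (mul_le_mul_of_nonneg_left ?_ (by positivity))
            (by positivity)
          exact (gb_le j).trans (pow_le_pow_left₀ (by positivity) hjj j)
      _ = (|n|⁻¹ * 7 * X) ^ j := by
          rw [mul_pow, mul_pow]; ring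
      _ = (e1⁻¹) ^ j := by
          congr 1
          rw [hX]
          field_simp
  have h3 : (e1⁻¹) ^ j = Real.exp (-(j : ℝ)) := by
    rw [he1, ← Real.exp_neg, ← Real.exp_nat_mul]
    congr 1
    ring
  have h4 : ((e1 * 7)⁻¹) ^ (2 / 3 : ℝ) * |n| ^ (2 / 3 : ℝ) = y := by
    rw [hy, hX, div_eq_mul_inv |n| (e1 * 7), Real.mul_rpow hn1.le (by positivity), mul_comm]
  calc (|n|⁻¹) ^ j * ‖Gf n j‖ ≤ (|n|⁻¹) ^ j * (7 ^ j * gb j) :=
        mul_le_mul_of_nonneg_left h1 (by positivity)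
    _ ≤ (e1⁻¹) ^ j := h2
    _ = Real.exp (-(j : ℝ)) := h3
    _ ≤ Real.exp (1 - ((e1 * 7)⁻¹) ^ (2 / 3 : ℝ) * |n| ^ (2 / 3 : ℝ)) := by
        rw [h4]
        apply Real.exp_le_exp.2
        linarith

theorem gev : S_GEV := by
  obtain ⟨c, hc, hdec⟩ := gf_decay
  refine ⟨gj 0, gj_cont 0, ?_, ?_, ?_, ?_, Real.exp (1 + c), c, hc, fun y => ?_⟩
  · intro s
    by_cases h : 0 < s ∧ s < 1
    · exact (gj_zero_pos h.1 h.2).le
    · rw [gj_out 0 h]
  · intro x
    have := gj_bound 0 x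
    simp only [pow_zero, Nat.factorial_zero, Nat.cast_one, Real.sqrt_one, mul_one] at this
    exact (le_abs_self _).trans this
  · intro x hx
    by_contra h
    exact hx (gj_out 0 h)
  · intro x h0 h1
    exact gj_zero_pos h0 h1
  · have e : ∫ x : ℝ, ((gj 0 x : ℝ) : ℂ) * Complex.exp (-(y * x * Complex.I)) = Gf y 0 := by
      unfold Gf
      rw [intervalIntegral.integral_of_le zero_le_one]
      symm
      apply setIntegral_eq_integral_of_forall_compl_eq_zero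
      intro x hx
      rw [gj_out 0, Complex.ofReal_zero, zero_mul]
      rintro ⟨h1, h2⟩
      exact hx ⟨h1, h2.le⟩
    rw [e, ← Real.exp_add]
    by_cases hy1 : |y| < 1
    · have h1 := gf_norm y 0
      have h2 : gb 0 = 1 := by unfold gb; simp
      rw [pow_zero, one_mul, h2] at h1
      refine h1.trans (Real.one_le_exp ?_)
      have h3 : |y| ^ (1 / 2 : ℝ) ≤ 1 := Real.rpow_le_one (abs_nonneg _) hy1.le (by norm_num)
      nlinarith
    · rw [not_lt] at hy1
      have hy0 : y ≠ 0 := by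
        rintro rfl
        rw [abs_zero] at hy1
        linarith
      refine (hdec y hy0).trans (Real.exp_le_exp.2 ?_)
      have h3 : |y| ^ (1 / 2 : ℝ) ≤ |y| ^ (2 / 3 : ℝ) :=
        Real.rpow_le_rpow_of_exponent_le hy1 (by norm_num)
      nlinarith

end Pool.Agent.P8H85.GW
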